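import Pool.Agent.H43.KS.Stm

/-! KS-LHS: second derivatives of the weight `m (1 + ‖y‖² / μ²)^(-n)` (adapted from the proof of LP by helper872). -/

set_option autoImplicit false

open MeasureTheory Metric Set Filter Topology
open scoped RealInnerProductSpace ENNReal

namespace Pool.Agent.H405.KS

open Pool.Agent.H43.BZ Pool.Agent.H43.KS

variable {d : ℕ}

theorem Dpos {μ : ℝ} (hμ : 0 < μ) (v : E d) : 0 < μ ^ 2 + ‖v‖ ^ 2 := by positivity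

/-- derivative of an inverse power of `μ² + ‖y‖²` -/
theorem hasF {μ : ℝ} (hμ : 0 < μ) (n : ℕ) (v : E d) :
    HasFDerivAt (fun y : E d => ((μ ^ 2 + ‖y‖ ^ 2) ^ n)⁻¹)
      ((-(2 * (n : ℝ)) * ((μ ^ 2 + ‖v‖ ^ 2) ^ (n + 1))⁻¹) • innerSL ℝ v) v := by
  have h1 : HasFDerivAt (fun y : E d => μ ^ 2 + ‖y‖ ^ 2) (2 • innerSL ℝ v) v :=
    (hasStrictFDerivAt_norm_sq v).hasFDerivAt.const_add (μ ^ 2)
  have hx : (μ ^ 2 + ‖v‖ ^ 2 : ℝ) ≠ 0 := (Dpos hμ v).ne'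
  have h2 : HasDerivAt (fun x : ℝ => (x ^ n)⁻¹)
      (-(n : ℝ) * ((μ ^ 2 + ‖v‖ ^ 2) ^ (n + 1))⁻¹) (μ ^ 2 + ‖v‖ ^ 2) := by
    have h3 := hasDerivAt_zpow (-(n : ℤ)) (μ ^ 2 + ‖v‖ ^ 2) (Or.inl hx)
    have e1 : (fun x : ℝ => x ^ (-(n : ℤ))) = fun x : ℝ => (x ^ n)⁻¹ := by
      funext x
      rw [zpow_neg, zpow_natCast]
    have e2 : ((-(n : ℤ) : ℤ) : ℝ) * (μ ^ 2 + ‖v‖ ^ 2) ^ (-(n : ℤ) - 1) =
        -(n : ℝ) * ((μ ^ 2 + ‖v‖ ^ 2) ^ (n + 1))⁻¹ := by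
      have e3 : (-(n : ℤ) - 1) = -((n + 1 : ℕ) : ℤ) := by
        push_cast
        ring
      rw [e3, zpow_neg, zpow_natCast]
      push_cast
      ring
    rw [e1, e2] at h3
    exact h3
  have h4 := h2.comp_hasFDerivAt v h1
  have e5 : (-(n : ℝ) * ((μ ^ 2 + ‖v‖ ^ 2) ^ (n + 1))⁻¹) • ((2 : ℕ) • innerSL ℝ v) =
      (-(2 * (n : ℝ)) * ((μ ^ 2 + ‖v‖ ^ 2) ^ (n + 1))⁻¹) • innerSL ℝ v := by
    rw [← Nat.cast_smul_eq_nsmul ℝ 2, smul_smul]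
    congr 1
    push_cast
    ring
  rw [e5] at h4
  exact h4

theorem fd1 {μ : ℝ} (hμ : 0 < μ) (n : ℕ) (N : ℝ) :
    fderiv ℝ (fun y : E d => N * ((μ ^ 2 + ‖y‖ ^ 2) ^ n)⁻¹) =
      fun v => ((-(2 * (n : ℝ)) * N) * ((μ ^ 2 + ‖v‖ ^ 2) ^ (n + 1))⁻¹) • innerSL ℝ v := by
  funext v
  have h := ((hasF hμ n v).const_mul N).fderiv
  rw [h, smul_smul]
  congr 1
  ring

theorem d2f {μ : ℝ} (hμ : 0 < μ) (n : ℕ) (N : ℝ) (v h : E d) :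
    d2 (fun y : E d => N * ((μ ^ 2 + ‖y‖ ^ 2) ^ n)⁻¹) v h =
      4 * n * (n + 1) * N * ((μ ^ 2 + ‖v‖ ^ 2) ^ (n + 2))⁻¹ * ⟪v, h⟫ ^ 2 -
        2 * n * N * ((μ ^ 2 + ‖v‖ ^ 2) ^ (n + 1))⁻¹ * ‖h‖ ^ 2 := by
  unfold d2
  rw [fd1 hμ]
  have h1 := (hasF hμ (n + 1) v).const_mul (-(2 * (n : ℝ)) * N)
  have h2 : HasFDerivAt (fun y : E d => innerSL ℝ y) (innerSL ℝ) v :=
    (innerSL ℝ).hasFDerivAt
  have h3 : fderiv ℝ (fun v : E d => (-(2 * (n : ℝ)) * N * ((μ ^ 2 + ‖v‖ ^ 2) ^ (n + 1))⁻¹) •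
      (innerSL ℝ v : E d →L[ℝ] ℝ)) v = _ := (h1.smul h2).fderiv
  rw [h3]
  have h5 : ((innerSL ℝ) h : E d →L[ℝ] ℝ) h = ‖h‖ ^ 2 := real_inner_self_eq_norm_sq h
  have h6 : ((innerSL ℝ : E d →L[ℝ] E d →L[ℝ] ℝ) h) h = ‖h‖ ^ 2 := h5
  simp only [add_apply, smul_apply,
    ContinuousLinearMap.smulRight_apply, smul_eq_mul, innerSL_apply_apply]
  try rw [h5]
  try rw [h6]
  push_cast
  ring

theorem sum_sq (v : E d) : ∑ i : Fin d, ⟪v, EuclideanSpace.single i (1 : ℝ)⟫ ^ 2 = ‖v‖ ^ 2 := by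
  rw [EuclideanSpace.norm_sq_eq]
  refine Finset.sum_congr rfl fun i _ => ?_
  rw [EuclideanSpace.inner_single_right]
  simp

theorem φs_eq' {μ : ℝ} (hμ : 0 < μ) (n : ℕ) (m : ℝ) (y : E d) :
    m * Pool.Agent.H821.BZ.φs n μ y = m * (μ ^ 2) ^ n * ((μ ^ 2 + ‖y‖ ^ 2) ^ n)⁻¹ := by
  rw [Pool.Agent.H821.BZ.φs_eq n hμ y]
  have h1 : (1 + ‖y‖ ^ 2 / μ ^ 2) = (μ ^ 2 + ‖y‖ ^ 2) / μ ^ 2 := by
    field_simp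
  rw [h1, div_pow, inv_div, mul_assoc, div_eq_mul_inv]

theorem LHS : S_LHS := by
  intro d hd γ m μ n hm hμ
  have hP : (fun y : E d => m * Pool.Agent.H821.BZ.φs n μ y) =
      fun y : E d => m * (μ ^ 2) ^ n * ((μ ^ 2 + ‖y‖ ^ 2) ^ n)⁻¹ := by
    funext y
    exact φs_eq' hμ n m y
  refine ⟨?_, ?_⟩
  · show ContDiff ℝ 2 (fun y : E d => m * Pool.Agent.H821.BZ.φs n μ y)
    rw [hP]
    refine contDiff_const.mul (ContDiff.inv ?_ ?_)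
    · exact (contDiff_const.add (contDiff_norm_sq ℝ)).pow _
    · intro x
      exact (pow_pos (Dpos hμ x) n).ne'
  · intro v z
    show aHess γ (fun y : E d => m * Pool.Agent.H821.BZ.φs n μ y) v z ≤ _
    unfold aHess
    rw [hP, φs_eq' hμ n m v]
    have hN : 0 ≤ m * (μ ^ 2) ^ n := by positivity
    generalize m * (μ ^ 2) ^ n = N at hN
    simp only [d2f hμ]
    rw [Finset.sum_sub_distrib, ← Finset.mul_sum, sum_sq]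
    have hs : ∑ i : Fin d, 2 * (n : ℝ) * N *
        ((μ ^ 2 + ‖v‖ ^ 2) ^ (n + 1))⁻¹ * ‖(EuclideanSpace.single i (1 : ℝ) : E d)‖ ^ 2 =
        d * (2 * (n : ℝ) * N * ((μ ^ 2 + ‖v‖ ^ 2) ^ (n + 1))⁻¹) := by
      simp
    rw [hs]
    have hD : 0 < μ ^ 2 + ‖v‖ ^ 2 := Dpos hμ v
    rw [pow_add (μ ^ 2 + ‖v‖ ^ 2) n 2, pow_add (μ ^ 2 + ‖v‖ ^ 2) n 1]
    have hX : 0 < (μ ^ 2 + ‖v‖ ^ 2 : ℝ) ^ n := pow_pos hD n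
    generalize (μ ^ 2 + ‖v‖ ^ 2 : ℝ) ^ n = X at hX
    generalize hDD : (μ ^ 2 + ‖v‖ ^ 2 : ℝ) = D at hD
    have hz : 0 ≤ ‖z‖ ^ γ := Real.rpow_nonneg (norm_nonneg z) γ
    have hd1 : (0 : ℝ) ≤ (d : ℝ) - 1 := by
      have : (2 : ℝ) ≤ d := by exact_mod_cast hd
      linarith
    have e1 : ‖z‖ ^ γ * (‖z‖ ^ 2 * (4 * n * (n + 1) * N * (X * D ^ 2)⁻¹ * ‖v‖ ^ 2 -
        d * (2 * n * N * (X * D ^ 1)⁻¹)) - (4 * n * (n + 1) * N * (X * D ^ 2)⁻¹ * ⟪v, z⟫ ^ 2 -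
        2 * n * N * (X * D ^ 1)⁻¹ * ‖z‖ ^ 2)) =
        N * X⁻¹ * (‖z‖ ^ γ * (4 * n * (n + 1) * (‖z‖ ^ 2 * ‖v‖ ^ 2 / D ^ 2))) -
        ‖z‖ ^ γ * (N * X⁻¹) * (4 * n * (n + 1) * ⟪v, z⟫ ^ 2 / D ^ 2 +
          2 * n * ((d : ℝ) - 1) * ‖z‖ ^ 2 / D) := by
      field_simp
      ring
    rw [e1]
    have e2 : 0 ≤ ‖z‖ ^ γ * (N * X⁻¹) * (4 * n * (n + 1) * ⟪v, z⟫ ^ 2 / D ^ 2 +
          2 * n * ((d : ℝ) - 1) * ‖z‖ ^ 2 / D) := by positivity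
    linarith

end Pool.Agent.H405.KS
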